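import Pool.Agent.N753.DR.Stm
import Pool.Agent.Y406.KH.Bal

/-!
# Project DR, part RED: a primitive integral polynomial with small coefficients
-/

set_option autoImplicit false

namespace Pool.Agent.N459.DR

open NumberField Module Polynomial Height Finset IsDedekindDomain

/-! ### Interpolation -/

theorem interp (r : ℕ) : ∃ (A : Fin (r + 1) → Fin (r + 1) → ℤ) (D : ℤ), D ≠ 0 ∧
    ∀ (R : Type) [CommRing R] (f : R[X]), f.natDegree ≤ r → ∀ i : Fin (r + 1),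
      (D : R) * f.coeff i = ∑ t : Fin (r + 1), (A i t : R) * f.eval (((t : ℕ) : ℤ) : R) := by
  classical
  obtain ⟨V, hV⟩ : ∃ V, V = Matrix.vandermonde (fun t : Fin (r + 1) => ((t : ℕ) : ℤ)) := ⟨_, rfl⟩
  refine ⟨fun i t => V.adjugate i t, V.det, ?_, ?_⟩
  · rw [hV, Matrix.det_vandermonde_ne_zero_iff]
    intro a b h
    have : ((a : ℕ) : ℤ) = ((b : ℕ) : ℤ) := h
    exact Fin.ext (by exact_mod_cast this)
  · intro R _ f hf i
    have h1 : ∀ j : Fin (r + 1), ∑ t, V.adjugate i t * V t j = if i = j then V.det else 0 := by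
      intro j
      have h := congrFun (congrFun (Matrix.adjugate_mul V) i) j
      rw [Matrix.mul_apply] at h
      rw [h, Matrix.smul_apply, Matrix.one_apply]
      split_ifs <;> simp
    have h2 : ∀ t : Fin (r + 1), f.eval (((t : ℕ) : ℤ) : R) =
        ∑ j : Fin (r + 1), f.coeff j * ((V t j : ℤ) : R) := by
      intro t
      rw [eval_eq_sum_range' (Nat.lt_succ_of_le hf), Finset.sum_range]
      refine Finset.sum_congr rfl fun j _ => ?_
      rw [hV, Matrix.vandermonde_apply]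
      push_cast
      rfl
    simp only [h2, Finset.mul_sum]
    rw [Finset.sum_comm]
    have h3 : ∀ j : Fin (r + 1), ∑ t : Fin (r + 1), (V.adjugate i t : R) *
        (f.coeff j * ((V t j : ℤ) : R)) = if i = j then (V.det : R) * f.coeff j else 0 := by
      intro j
      have h4 : ((∑ t, V.adjugate i t * V t j : ℤ) : R) =
          ((if i = j then V.det else 0 : ℤ) : R) := by rw [h1 j]
      rw [Int.cast_sum] at h4
      simp only [Int.cast_mul] at h4
      calc ∑ t : Fin (r + 1), (V.adjugate i t : R) * (f.coeff j * ((V t j : ℤ) : R))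
          = (∑ t : Fin (r + 1), (V.adjugate i t : R) * ((V t j : ℤ) : R)) * f.coeff j := by
            rw [Finset.sum_mul]
            refine Finset.sum_congr rfl fun t _ => ?_
            ring
        _ = if i = j then (V.det : R) * f.coeff j else 0 := by
            rw [h4]
            split_ifs
            · rfl
            · simp
    simp only [h3]
    simp

/-! ### The class group and the coordinates -/

section one

variable (K : Type) [Field K] [NumberField K]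

theorem class_rep : ∃ R : Finset (Ideal (𝓞 K)), (∀ 𝔞 ∈ R, 𝔞 ≠ ⊥) ∧
    ∀ I : Ideal (𝓞 K), I ≠ ⊥ → ∃ 𝔞 ∈ R, ∃ a g : 𝓞 K, a ≠ 0 ∧ g ≠ 0 ∧
      Ideal.span {a} * I = Ideal.span {g} * 𝔞 := by
  classical
  choose rep hrep using ClassGroup.mk0_surjective (R := 𝓞 K)
  refine ⟨Finset.univ.image fun c => ((rep c : nonZeroDivisors (Ideal (𝓞 K))) : Ideal (𝓞 K)),
    ?_, ?_⟩
  · intro 𝔞 h𝔞
    obtain ⟨c, -, rfl⟩ := Finset.mem_image.1 h𝔞
    exact nonZeroDivisors.coe_ne_zero _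
  · intro I hI
    obtain ⟨I', hI'⟩ : ∃ I' : nonZeroDivisors (Ideal (𝓞 K)), (I' : Ideal (𝓞 K)) = I :=
      ⟨⟨I, mem_nonZeroDivisors_of_ne_zero hI⟩, rfl⟩
    refine ⟨_, Finset.mem_image_of_mem _ (Finset.mem_univ (ClassGroup.mk0 I')), ?_⟩
    have h := (hrep (ClassGroup.mk0 I')).symm
    rw [ClassGroup.mk0_eq_mk0_iff] at h
    obtain ⟨a, g, ha, hg, h⟩ := h
    rw [hI'] at h
    exact ⟨a, g, ha, hg, h⟩

theorem coord_bd : ∃ C : ℝ, 0 < C ∧ ∀ (z : 𝓞 K) (B : ℝ), 0 ≤ B → (∀ σ : K →+* ℂ, ‖σ z‖ ≤ B) →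
    ∀ i, |(((RingOfIntegers.basis K).repr z i : ℤ) : ℝ)| ≤ C * B := by
  classical
  obtain ⟨c, hc⟩ : ∃ c : ℝ, ∀ (α : 𝓞 K) (i : K →+* ℂ),
      ‖(((integralBasis K).reindex (equivReindex K).symm).repr α i : ℂ)‖ ≤
        c * house (algebraMap (𝓞 K) K α) :=
    ⟨_, fun α i => house.basis_repr_norm_le_const_mul_house K α i⟩
  refine ⟨max c 1, lt_of_lt_of_le one_pos (le_max_right _ _), fun z B hB hz i => ?_⟩
  have h1 := hc z ((equivReindex K).symm i)
  rw [Basis.repr_reindex_apply, Equiv.symm_symm, Equiv.apply_symm_apply] at h1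
  have h2 : (integralBasis K).repr (z : K) i = (((RingOfIntegers.basis K).repr z i : ℤ) : ℚ) :=
    integralBasis_repr_apply K z i
  have h3 : house (algebraMap (𝓞 K) K z) ≤ B := by
    unfold house
    rw [pi_norm_le_iff_of_nonneg hB]
    intro σ
    exact hz σ
  have h4 : 0 ≤ house (algebraMap (𝓞 K) K z) := house_nonneg _
  have h5 : |(((RingOfIntegers.basis K).repr z i : ℤ) : ℝ)| =
      ‖((integralBasis K).repr (z : K) i : ℂ)‖ := by
    rw [h2]
    simp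
  rw [h5]
  refine h1.trans ?_
  calc c * house (algebraMap (𝓞 K) K z) ≤ max c 1 * house (algebraMap (𝓞 K) K z) :=
        mul_le_mul_of_nonneg_right (le_max_left _ _) h4
    _ ≤ max c 1 * B := mul_le_mul_of_nonneg_left h3 (le_trans zero_le_one (le_max_right _ _))

end one

/-! ### Embeddings -/

section emb

variable {K M : Type} [Field K] [NumberField K] [Field M] [NumberField M] [Algebra K M]

open Classical in
/-- the embeddings above `σ` -/
noncomputable def ab (M : Type) [Field M] [NumberField M] [Algebra K M] (σ : K →+* ℂ) :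
    Finset (M →+* ℂ) :=
  Finset.univ.filter fun τ => τ.comp (algebraMap K M) = σ

/-- the homomorphism of algebras -/
noncomputable def toAlg (σ : K →+* ℂ) (τ : M →+* ℂ) (h : τ.comp (algebraMap K M) = σ) :
    letI := σ.toAlgebra
    M →ₐ[K] ℂ :=
  letI := σ.toAlgebra
  { toRingHom := τ
    commutes' := fun x => congrArg (fun f : K →+* ℂ => f x) h }

theorem prod_ab {N : Type} [CommMonoid N] (F : (M →+* ℂ) → N) (σ : K →+* ℂ) :
    ∏ τ ∈ ab M σ, F τ = (letI := σ.toAlgebra; ∏ τ : M →ₐ[K] ℂ, F (τ : M →+* ℂ)) := by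
  classical
  letI := σ.toAlgebra
  symm
  refine Finset.prod_bij' (fun τ _ => (τ : M →+* ℂ))
    (fun τ hτ => toAlg σ τ (Finset.mem_filter.1 hτ).2) ?_ ?_ ?_ ?_ ?_
  · intro τ _
    unfold ab
    rw [Finset.mem_filter]
    refine ⟨Finset.mem_univ _, ?_⟩
    ext x
    exact τ.commutes x
  · intro τ _
    exact Finset.mem_univ _
  · intro τ _
    rfl
  · intro τ _
    rfl
  · intro τ _
    rfl

theorem norm_emb (σ : K →+* ℂ) (γ : M) : σ (Algebra.norm K γ) = ∏ τ ∈ ab M σ, τ γ := by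
  letI := σ.toAlgebra
  haveI : Module.Finite K M := Module.Finite.of_restrictScalars_finite ℚ K M
  rw [prod_ab]
  exact Algebra.norm_eq_prod_embeddings K ℂ γ

theorem card_ab (σ : K →+* ℂ) : (ab M σ).card = finrank K M := by
  letI := σ.toAlgebra
  haveI : Module.Finite K M := Module.Finite.of_restrictScalars_finite ℚ K M
  have h := prod_ab (M := M) (fun _ => Multiplicative.ofAdd (1 : ℕ)) σ
  rw [Finset.prod_const, Finset.prod_const, Finset.card_univ] at h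
  have h2 := congrArg Multiplicative.toAdd h
  rw [toAdd_pow, toAdd_pow] at h2
  simp only [toAdd_ofAdd, smul_eq_mul, mul_one] at h2
  rw [h2]
  exact AlgHom.card K M ℂ

theorem prod_fib {N : Type} [CommMonoid N] (F : (M →+* ℂ) → N) :
    ∏ σ : K →+* ℂ, ∏ τ ∈ ab M σ, F τ = ∏ τ : M →+* ℂ, F τ := by
  classical
  unfold ab
  exact Finset.prod_fiberwise _ _ _

theorem conj_ab (α β : M) (σ : K →+* ℂ) :
    ∏ τ ∈ ab M (ComplexEmbedding.conjugate σ), max ‖τ α‖ ‖τ β‖ =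
      ∏ τ ∈ ab M σ, max ‖τ α‖ ‖τ β‖ := by
  classical
  refine Finset.prod_bij' (fun τ _ => ComplexEmbedding.conjugate τ)
    (fun τ _ => ComplexEmbedding.conjugate τ) ?_ ?_ ?_ ?_ ?_
  · intro τ hτ
    unfold ab at hτ ⊢
    rw [Finset.mem_filter] at hτ ⊢
    refine ⟨Finset.mem_univ _, ?_⟩
    have h := congrArg ComplexEmbedding.conjugate hτ.2
    rw [ComplexEmbedding.involutive_conjugate] at h
    rw [← h]
    rfl
  · intro τ hτ
    unfold ab at hτ ⊢
    rw [Finset.mem_filter] at hτ ⊢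
    refine ⟨Finset.mem_univ _, ?_⟩
    rw [← hτ.2]
    rfl
  · intro τ _
    exact ComplexEmbedding.involutive_conjugate _ τ
  · intro τ _
    exact ComplexEmbedding.involutive_conjugate _ τ
  · intro τ _
    simp [ComplexEmbedding.conjugate_coe_eq]

theorem prod_mk (F : InfinitePlace M → ℝ) :
    ∏ v : InfinitePlace M, F v ^ v.mult = ∏ τ : M →+* ℂ, F (InfinitePlace.mk τ) := by
  classical
  rw [← Finset.prod_fiberwise Finset.univ InfinitePlace.mk (fun τ => F (InfinitePlace.mk τ))]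
  refine Finset.prod_congr rfl fun v _ => ?_
  rw [← InfinitePlace.card_filter_mk_eq v, ← Finset.prod_const]
  refine Finset.prod_congr ?_ fun τ hτ => ?_
  · ext τ
    simp
  · rw [(Finset.mem_filter.1 hτ).2]

theorem height_emb (α β : 𝓞 M) (hβ : β ≠ 0) :
    ∏ τ : M →+* ℂ, max ‖τ α‖ ‖τ β‖ =
      mulHeight₁ ((α : M) / β) * (Ideal.absNorm (Ideal.span (Set.range ![α, β])) : ℝ) := by
  have hx : (![α, β] : Fin 2 → 𝓞 M) ≠ 0 := by
    intro h
    exact hβ (congrFun h 1)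
  have hx' : (![(α : M), (β : M)] : Fin 2 → M) ≠ 0 := by
    intro h
    have := congrFun h 1
    exact hβ (RingOfIntegers.coe_eq_zero_iff.1 this)
  have h1 := absNorm_mul_finprod_finitePlace_eq_one hx
  rw [mulHeight₁_div_eq_mulHeight, NumberField.mulHeight_eq hx']
  have hi : ∀ (a b : ℝ) , ⨆ i, (![a, b] : Fin 2 → ℝ) i = max a b := by
    intro a b
    apply le_antisymm
    · refine ciSup_le fun i => ?_
      fin_cases i
      · exact le_max_left _ _
      · exact le_max_right _ _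
    · refine max_le ?_ ?_
      · exact Finite.le_ciSup_of_le 0 le_rfl
      · exact Finite.le_ciSup_of_le 1 le_rfl
  have h2 : ∀ v : InfinitePlace M, ⨆ i, v ((![(α : M), (β : M)] : Fin 2 → M) i) =
      max (v α) (v β) := by
    intro v
    rw [← hi]
    congr 1
    funext i
    fin_cases i <;> rfl
  have h3 : (∏ᶠ v : FinitePlace M, ⨆ i, v ((![(α : M), (β : M)] : Fin 2 → M) i)) =
      ∏ᶠ v : FinitePlace M, ⨆ i, v (((![α, β] : Fin 2 → 𝓞 M) i : 𝓞 M) : M) := by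
    refine finprod_congr fun v => ?_
    congr 1
    funext i
    fin_cases i <;> rfl
  rw [h3]
  simp only [h2]
  rw [prod_mk (fun v : InfinitePlace M => max (v (α : M)) (v (β : M))), mul_assoc, mul_comm (∏ᶠ _ : FinitePlace M, _), h1,
    mul_one]
  rfl

theorem norm_sub_eval (x : M) (h : (minpoly K x).natDegree = finrank K M) (t : K) :
    Algebra.norm K (algebraMap K M t - x) = (minpoly K x).eval t := by
  classical
  have : Module.Finite K M := Module.Finite.of_restrictScalars_finite ℚ K M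
  have htop := (Field.primitive_element_iff_minpoly_natDegree_eq K x).2 h
  have hx : IsIntegral K x := Algebra.IsIntegral.isIntegral x
  have htop' : Algebra.adjoin K {x} = ⊤ := by
    have h1 := IntermediateField.adjoin_simple_toSubalgebra_of_isAlgebraic hx.isAlgebraic
    rw [htop] at h1
    rw [← h1]
    rfl
  obtain ⟨pb, hpb⟩ : ∃ pb : PowerBasis K M, pb.gen = x :=
    ⟨PowerBasis.ofAdjoinEqTop hx htop', PowerBasis.ofAdjoinEqTop_gen hx htop'⟩
  subst hpb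
  rw [Algebra.norm_eq_matrix_det pb.basis, map_sub, ← charpoly_leftMulMatrix pb,
    Matrix.eval_charpoly]
  congr 2
  rw [AlgHom.commutes]
  rfl

theorem prod_norm (a : 𝓞 K) : ∏ σ : K →+* ℂ, ‖σ a‖ = (Ideal.absNorm (Ideal.span {a}) : ℝ) := by
  rw [Ideal.absNorm_span_singleton, ← norm_prod]
  have h : (∏ σ : K →+* ℂ, σ a) = ((Algebra.norm ℚ (a : K) : ℚ) : ℂ) := by
    have h1 := Algebra.norm_eq_prod_embeddings ℚ ℂ (a : K)
    rw [eq_ratCast] at h1
    rw [h1]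
    exact Fintype.prod_equiv (RingHom.equivRatAlgHom K ℂ) _ _ fun σ => rfl
  rw [h, ← Algebra.coe_norm_int a]
  push_cast
  rw [Nat.cast_natAbs]
  simp

/-- the coefficients of the norm of `β X - α` -/
theorem data_M (r : ℕ) (A : Fin (r + 1) → Fin (r + 1) → ℤ) (D : ℤ)
    (hA : ∀ (R : Type) [CommRing R] (f : R[X]), f.natDegree ≤ r → ∀ i : Fin (r + 1),
      (D : R) * f.coeff i = ∑ t : Fin (r + 1), (A i t : R) * f.eval (((t : ℕ) : ℤ) : R))
    (C1 : ℝ) (hC1 : ∀ i, ∑ t : Fin (r + 1), |(A i t : ℝ)| * ((t : ℕ) + 1 : ℝ) ^ r ≤ C1)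
    (x : M) (hr : finrank K M = r) (hx : (minpoly K x).natDegree = r) :
    ∃ (α β : 𝓞 M) (b : Fin (r + 1) → 𝓞 K), β ≠ 0 ∧ x = (α : M) / β ∧
      (∀ i, (b i : K) = D * Algebra.norm K (β : M) * (minpoly K x).coeff i) ∧
      (∀ i, b i ∈ Ideal.relNorm (𝓞 K) (Ideal.span (Set.range ![α, β]))) ∧
      ∀ (σ : K →+* ℂ) (i : Fin (r + 1)), ‖σ (b i)‖ ≤ C1 * ∏ τ ∈ ab M σ, max ‖τ α‖ ‖τ β‖ := by
  have : Module.Finite K M := Module.Finite.of_restrictScalars_finite ℚ K M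
  obtain ⟨α, β, hβ, hy⟩ := IsFractionRing.div_surjective (𝓞 M) x
  have hβ0 : β ≠ 0 := nonZeroDivisors.ne_zero hβ
  have hβM : (β : M) ≠ 0 := fun h => hβ0 (RingOfIntegers.coe_eq_zero_iff.1 h)
  have hxβ : x * (β : M) = (α : M) := by
    rw [← hy]
    exact div_mul_cancel₀ _ hβM
  obtain ⟨g, hg⟩ : ∃ g : Fin (r + 1) → 𝓞 M, ∀ t, g t = (((t : ℕ) : ℤ) : 𝓞 M) * β - α :=
    ⟨_, fun _ => rfl⟩
  have hgM : ∀ t, ((g t : 𝓞 M) : M) =
      (algebraMap K M (((t : ℕ) : ℤ) : K) - x) * (β : M) := by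
    intro t
    rw [sub_mul, hxβ, hg]
    push_cast
    rfl
  have hz : ∀ t, ((Algebra.intNorm (𝓞 K) (𝓞 M) (g t) : 𝓞 K) : K) =
      (minpoly K x).eval (((t : ℕ) : ℤ) : K) * Algebra.norm K (β : M) := by
    intro t
    have h1 : ((Algebra.intNorm (𝓞 K) (𝓞 M) (g t) : 𝓞 K) : K) = Algebra.norm K (g t : M) :=
      Algebra.algebraMap_intNorm (A := 𝓞 K) (K := K) (L := M) (B := 𝓞 M) (g t)
    rw [h1, hgM, map_mul, norm_sub_eval x (hx.trans hr.symm)]
  have hcoe : ∀ i, ((∑ t, (A i t : 𝓞 K) * Algebra.intNorm (𝓞 K) (𝓞 M) (g t) : 𝓞 K) : K) =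
      ∑ t, (A i t : K) * ((Algebra.intNorm (𝓞 K) (𝓞 M) (g t) : 𝓞 K) : K) := by
    intro i
    push_cast
    rfl
  refine ⟨α, β, fun i => ∑ t, (A i t : 𝓞 K) * Algebra.intNorm (𝓞 K) (𝓞 M) (g t), hβ0, hy.symm,
    ?_, ?_, ?_⟩
  · intro i
    have h1 := hA K (minpoly K x) hx.le i
    rw [mul_right_comm, h1, hcoe, Finset.sum_mul]
    refine Finset.sum_congr rfl fun t _ => ?_
    rw [hz, mul_assoc]
  · intro i
    refine Ideal.sum_mem _ fun t _ => Ideal.mul_mem_left _ _ ?_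
    have h1 : g t ∈ Ideal.span (Set.range ![α, β]) := by
      rw [hg]
      refine Ideal.sub_mem _ (Ideal.mul_mem_left _ _ (Ideal.subset_span ⟨1, rfl⟩))
        (Ideal.subset_span ⟨0, rfl⟩)
    have h2 : Ideal.relNorm (𝓞 K) (Ideal.span {g t}) ≤
        Ideal.relNorm (𝓞 K) (Ideal.span (Set.range ![α, β])) :=
      Ideal.relNorm_mono _ ((Ideal.span_singleton_le_iff_mem _).2 h1)
    rw [Ideal.relNorm_singleton] at h2
    exact h2 (Ideal.subset_span rfl)
  · intro σ i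
    obtain ⟨QQ, hQQ⟩ : ∃ QQ, QQ = ∏ τ ∈ ab M σ, max ‖τ α‖ ‖τ β‖ := ⟨_, rfl⟩
    have hQQ0 : 0 ≤ QQ := by
      rw [hQQ]
      exact Finset.prod_nonneg fun τ _ => le_max_of_le_left (norm_nonneg _)
    rw [← hQQ]
    have h1 : ∀ t, ‖σ ((Algebra.intNorm (𝓞 K) (𝓞 M) (g t) : 𝓞 K) : K)‖ ≤
        ((t : ℕ) + 1 : ℝ) ^ r * QQ := by
      intro t
      have h2 : ((Algebra.intNorm (𝓞 K) (𝓞 M) (g t) : 𝓞 K) : K) = Algebra.norm K (g t : M) :=
        Algebra.algebraMap_intNorm (A := 𝓞 K) (K := K) (L := M) (B := 𝓞 M) (g t)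
      have hc : (ab M σ).card = r := (card_ab σ).trans hr
      have e1 : ((t : ℕ) + 1 : ℝ) ^ r * QQ =
          ∏ τ ∈ ab M σ, (((t : ℕ) + 1 : ℝ) * max ‖τ α‖ ‖τ β‖) := by
        rw [Finset.prod_mul_distrib, Finset.prod_const, hc, hQQ]
      rw [h2, norm_emb, norm_prod, e1]
      refine Finset.prod_le_prod (fun _ _ => norm_nonneg _) fun τ _ => ?_
      rw [hg]
      push_cast
      rw [map_sub, map_mul, map_natCast]
      refine (norm_sub_le _ _).trans ?_
      rw [norm_mul, Complex.norm_natCast]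
      have h3 : ‖τ (α : M)‖ ≤ max ‖τ (α : M)‖ ‖τ (β : M)‖ := le_max_left _ _
      have h4 : ‖τ (β : M)‖ ≤ max ‖τ (α : M)‖ ‖τ (β : M)‖ := le_max_right _ _
      have h5 := mul_le_mul_of_nonneg_left h4 (Nat.cast_nonneg (α := ℝ) (t : ℕ))
      linarith
    rw [hcoe, map_sum]
    refine (norm_sum_le _ _).trans ?_
    calc ∑ t, ‖σ ((A i t : K) * ((Algebra.intNorm (𝓞 K) (𝓞 M) (g t) : 𝓞 K) : K))‖
        ≤ ∑ t, (|(A i t : ℝ)| * ((t : ℕ) + 1 : ℝ) ^ r) * QQ := by
          refine Finset.sum_le_sum fun t _ => ?_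
          rw [map_mul, norm_mul, map_intCast, Complex.norm_intCast, mul_assoc]
          exact mul_le_mul_of_nonneg_left (h1 t) (abs_nonneg _)
      _ = (∑ t, |(A i t : ℝ)| * ((t : ℕ) + 1 : ℝ) ^ r) * QQ := by rw [Finset.sum_mul]
      _ ≤ C1 * QQ := mul_le_mul_of_nonneg_right (hC1 i) hQQ0

end emb

open Pool.Agent.N753.DR in
/-- **DR/RED** -/
theorem t : StmRed := by
  classical
  intro K _ _ r hr1
  obtain ⟨A, D, hD, hA⟩ := interp r
  obtain ⟨R, hR0, hR⟩ := class_rep K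
  obtain ⟨C5, hC5, hcoord⟩ := coord_bd K
  obtain ⟨C3, hC3, hbal⟩ := Pool.Agent.Y406.KH.bal K
  obtain ⟨C1, hC1d⟩ : ∃ C1 : ℝ, C1 = (∑ i : Fin (r + 1), ∑ t : Fin (r + 1),
      |(A i t : ℝ)| * ((t : ℕ) + 1 : ℝ) ^ r) + 1 := ⟨_, rfl⟩
  have hC1 : ∀ i, ∑ t : Fin (r + 1), |(A i t : ℝ)| * ((t : ℕ) + 1 : ℝ) ^ r ≤ C1 := by
    intro i
    have h := Finset.single_le_sum (f := fun i => ∑ t : Fin (r + 1),
      |(A i t : ℝ)| * ((t : ℕ) + 1 : ℝ) ^ r) (fun i _ => by positivity) (Finset.mem_univ i)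
    linarith
  have hC1pos : 0 < C1 := by
    have : (0 : ℝ) ≤ ∑ i : Fin (r + 1), ∑ t : Fin (r + 1),
      |(A i t : ℝ)| * ((t : ℕ) + 1 : ℝ) ^ r := by positivity
    linarith
  obtain ⟨Nm, hNm⟩ : ∃ Nm : ℝ, Nm = (∑ 𝔞 ∈ R, (Ideal.absNorm 𝔞 : ℝ)) + 1 := ⟨_, rfl⟩
  have hNmle : ∀ 𝔞 ∈ R, (Ideal.absNorm 𝔞 : ℝ) ≤ Nm := by
    intro 𝔞 h𝔞
    have h := Finset.single_le_sum (f := fun 𝔞 : Ideal (𝓞 K) => (Ideal.absNorm 𝔞 : ℝ))
      (fun 𝔞 _ => by positivity) h𝔞
    linarith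
  have hNm0 : 0 < Nm := by
    have : (0 : ℝ) ≤ ∑ 𝔞 ∈ R, (Ideal.absNorm 𝔞 : ℝ) := by positivity
    linarith
  obtain ⟨n, hn⟩ : ∃ n : ℕ, n = finrank ℚ K := ⟨_, rfl⟩
  have hn0 : 0 < n := by
    rw [hn]
    exact Module.finrank_pos
  have hn0' : (0 : ℝ) < n := by exact_mod_cast hn0
  -- the bad primes
  have hfin : ∀ 𝔞 ∈ R, {v : HeightOneSpectrum (𝓞 K) | v.asIdeal ∣ 𝔞}.Finite := fun 𝔞 h𝔞 =>
    Ideal.finite_factors (hR0 𝔞 h𝔞)
  have hfin2 : (⋃ 𝔞 ∈ R, {v : HeightOneSpectrum (𝓞 K) | v.asIdeal ∣ 𝔞}).Finite :=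
    Set.Finite.biUnion R.finite_toSet hfin
  obtain ⟨C4, hC4⟩ : ∃ C4 : ℝ, C4 = (n * Real.log C1 + Real.log Nm) / n + C3 := ⟨_, rfl⟩
  refine ⟨hfin2.toFinset, C5 * Real.exp C4, by positivity, ?_⟩
  intro M _ _ _ x hMr hxr
  obtain ⟨α, β, b, hβ, hxαβ, hb, hbJ, hbσ⟩ := data_M r A D hA C1 hC1 x hMr hxr
  obtain ⟨J, hJ⟩ : ∃ J : Ideal (𝓞 M), J = Ideal.span (Set.range ![α, β]) := ⟨_, rfl⟩
  rw [← hJ] at hbJ
  have hβM : (β : M) ≠ 0 := fun h => hβ (RingOfIntegers.coe_eq_zero_iff.1 h)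
  have hNβ : Algebra.norm K (β : M) ≠ 0 := by
    have : Module.Finite K M := Module.Finite.of_restrictScalars_finite ℚ K M
    exact Algebra.norm_ne_zero_iff.2 hβM
  have hDK : (D : K) ≠ 0 := by exact_mod_cast hD
  have hx : IsIntegral K x := by
    have : Module.Finite K M := Module.Finite.of_restrictScalars_finite ℚ K M
    exact Algebra.IsIntegral.isIntegral x
  have hJ0 : J ≠ ⊥ := by
    intro h
    have h1 : β ∈ J := by
      rw [hJ]
      exact Ideal.subset_span ⟨1, rfl⟩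
    rw [h] at h1
    exact hβ (by simpa using h1)
  have hNJ : (0 : ℝ) < (Ideal.absNorm J : ℝ) := by
    have := Ideal.absNorm_ne_zero_of_nonZeroDivisors ⟨J, mem_nonZeroDivisors_of_ne_zero hJ0⟩
    have h2 : 0 < Ideal.absNorm J := Nat.pos_of_ne_zero this
    exact_mod_cast h2
  -- the ideal generated by the coefficients
  obtain ⟨I, hI⟩ : ∃ I : Ideal (𝓞 K), I = Ideal.span (Set.range b) := ⟨_, rfl⟩
  have hbr : b (Fin.last r) ≠ 0 := by
    intro h
    have h1 := hb (Fin.last r)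
    rw [h] at h1
    have h2 : (minpoly K x).coeff ((Fin.last r : Fin (r + 1)) : ℕ) = 1 := by
      rw [Fin.val_last, ← hxr]
      exact minpoly.monic hx
    rw [h2, mul_one] at h1
    have h3 : ((0 : 𝓞 K) : K) = 0 := rfl
    rw [h3] at h1
    exact mul_ne_zero hDK hNβ h1.symm
  have hI0 : I ≠ ⊥ := by
    intro h
    have h1 : b (Fin.last r) ∈ I := by
      rw [hI]
      exact Ideal.subset_span ⟨_, rfl⟩
    rw [h] at h1
    exact hbr (by simpa using h1)
  have hIJ : (Ideal.absNorm J : ℝ) ≤ (Ideal.absNorm I : ℝ) := by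
    have h1 : I ≤ Ideal.relNorm (𝓞 K) J := by
      rw [hI, Ideal.span_le]
      rintro _ ⟨i, rfl⟩
      exact hbJ i
    have h2 := Ideal.absNorm_dvd_absNorm_of_le h1
    rw [Ideal.absNorm_relNorm] at h2
    have h3 : 0 < Ideal.absNorm I := by
      have := Ideal.absNorm_ne_zero_of_nonZeroDivisors ⟨I, mem_nonZeroDivisors_of_ne_zero hI0⟩
      exact Nat.pos_of_ne_zero this
    exact_mod_cast Nat.le_of_dvd h3 h2
  have hNI : (0 : ℝ) < (Ideal.absNorm I : ℝ) := hNJ.trans_le hIJ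
  obtain ⟨𝔞, h𝔞, a, g, ha, hg, hag⟩ := hR I hI0
  have haK : (a : K) ≠ 0 := fun h => ha (RingOfIntegers.coe_eq_zero_iff.1 h)
  have hgK : (g : K) ≠ 0 := fun h => hg (RingOfIntegers.coe_eq_zero_iff.1 h)
  -- the new coefficients
  have hex : ∀ i, ∃ c' : 𝓞 K, a * b i = g * c' ∧ c' ∈ 𝔞 := by
    intro i
    have h1 : a * b i ∈ Ideal.span {g} * 𝔞 := by
      rw [← hag]
      refine Ideal.mul_mem_mul (Ideal.subset_span rfl) ?_
      rw [hI]
      exact Ideal.subset_span ⟨i, rfl⟩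
    obtain ⟨c', hc', h2⟩ := Ideal.mem_span_singleton_mul.1 h1
    exact ⟨c', h2.symm, hc'⟩
  choose c' hc' hc'𝔞 using hex
  -- the functions to be balanced
  obtain ⟨QQ, hQQ⟩ : ∃ QQ : (K →+* ℂ) → ℝ, ∀ σ, QQ σ = ∏ τ ∈ ab M σ, max ‖τ α‖ ‖τ β‖ :=
    ⟨_, fun _ => rfl⟩
  have hQQ0 : ∀ σ, 0 < QQ σ := by
    intro σ
    rw [hQQ]
    refine Finset.prod_pos fun τ _ => lt_max_of_lt_right ?_
    rw [norm_pos_iff]
    exact (map_ne_zero τ).2 hβM
  have hσa : ∀ σ : K →+* ℂ, 0 < ‖σ a‖ := fun σ => by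
    rw [norm_pos_iff]
    exact (map_ne_zero σ).2 haK
  have hσg : ∀ σ : K →+* ℂ, 0 < ‖σ g‖ := fun σ => by
    rw [norm_pos_iff]
    exact (map_ne_zero σ).2 hgK
  obtain ⟨L, hL⟩ : ∃ L : (K →+* ℂ) → ℝ, ∀ σ, L σ = Real.log C1 + Real.log (QQ σ) +
      Real.log ‖σ a‖ - Real.log ‖σ g‖ := ⟨_, fun _ => rfl⟩
  have hLconj : ∀ σ, L (ComplexEmbedding.conjugate σ) = L σ := by
    intro σ
    rw [hL, hL, hQQ, hQQ, conj_ab]
    simp [ComplexEmbedding.conjugate_coe_eq]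
  obtain ⟨u, hu⟩ := hbal L hLconj
  have hsum : ∑ σ, L σ ≤ logHeight₁ x + (n * Real.log C1 + Real.log Nm) := by
    have e1 : ∑ σ : K →+* ℂ, Real.log (QQ σ) =
        logHeight₁ x + Real.log (Ideal.absNorm J : ℝ) := by
      rw [← Real.log_prod (fun σ _ => (hQQ0 σ).ne')]
      simp only [hQQ]
      rw [prod_fib (fun τ : M →+* ℂ => max ‖τ α‖ ‖τ β‖), height_emb α β hβ, ← hxαβ, ← hJ,
        Real.log_mul (mulHeight₁_ne_zero x) hNJ.ne']
      rfl
    have e2 : ∑ σ : K →+* ℂ, Real.log ‖σ a‖ =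
        Real.log (Ideal.absNorm (Ideal.span {a}) : ℝ) := by
      rw [← Real.log_prod (fun σ _ => (hσa σ).ne'), prod_norm]
    have e3 : ∑ σ : K →+* ℂ, Real.log ‖σ g‖ =
        Real.log (Ideal.absNorm (Ideal.span {g}) : ℝ) := by
      rw [← Real.log_prod (fun σ _ => (hσg σ).ne'), prod_norm]
    have e4 : ∑ σ : K →+* ℂ, Real.log C1 = n * Real.log C1 := by
      rw [Finset.sum_const, Finset.card_univ, nsmul_eq_mul, hn]
      congr 2
      exact Embeddings.card K ℂ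
    have e5 : ∑ σ, L σ = n * Real.log C1 + (logHeight₁ x + Real.log (Ideal.absNorm J : ℝ)) +
        Real.log (Ideal.absNorm (Ideal.span {a}) : ℝ) -
        Real.log (Ideal.absNorm (Ideal.span {g}) : ℝ) := by
      simp only [hL]
      rw [Finset.sum_sub_distrib, Finset.sum_add_distrib, Finset.sum_add_distrib, e1, e2, e3, e4]
    have hNa : (0 : ℝ) < (Ideal.absNorm (Ideal.span {a}) : ℝ) := by
      rw [← prod_norm]
      exact Finset.prod_pos fun σ _ => hσa σ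
    have hNg : (0 : ℝ) < (Ideal.absNorm (Ideal.span {g}) : ℝ) := by
      rw [← prod_norm]
      exact Finset.prod_pos fun σ _ => hσg σ
    have hN𝔞 : (0 : ℝ) < (Ideal.absNorm 𝔞 : ℝ) := by
      have := Ideal.absNorm_ne_zero_of_nonZeroDivisors
        ⟨𝔞, mem_nonZeroDivisors_of_ne_zero (hR0 𝔞 h𝔞)⟩
      have h2 : 0 < Ideal.absNorm 𝔞 := Nat.pos_of_ne_zero this
      exact_mod_cast h2
    have e6 : (Ideal.absNorm (Ideal.span {a}) : ℝ) * (Ideal.absNorm I : ℝ) =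
        (Ideal.absNorm (Ideal.span {g}) : ℝ) * (Ideal.absNorm 𝔞 : ℝ) := by
      have h1 := congrArg Ideal.absNorm hag
      rw [map_mul, map_mul] at h1
      exact_mod_cast h1
    have e7 := congrArg Real.log e6
    rw [Real.log_mul hNa.ne' hNI.ne', Real.log_mul hNg.ne' hN𝔞.ne'] at e7
    have e8 : Real.log (Ideal.absNorm J : ℝ) ≤ Real.log (Ideal.absNorm I : ℝ) :=
      Real.log_le_log hNJ hIJ
    have e9 : Real.log (Ideal.absNorm 𝔞 : ℝ) ≤ Real.log Nm :=
      Real.log_le_log hN𝔞 (hNmle 𝔞 h𝔞)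
    rw [e5]
    linarith
  have huK : ((u : 𝓞 K) : K) ≠ 0 := by
    intro h
    exact u.ne_zero (RingOfIntegers.coe_eq_zero_iff.1 h)
  have hbound : ∀ (σ : K →+* ℂ) (i : Fin (r + 1)), ‖σ (((u : 𝓞 K) * c' i : 𝓞 K) : K)‖ ≤
      Real.exp C4 * Real.exp (logHeight₁ x / n) := by
    intro σ i
    have h1 : ‖σ (c' i)‖ * ‖σ g‖ = ‖σ a‖ * ‖σ (b i)‖ := by
      have h5 : (g : K) * (c' i : K) = (a : K) * (b i : K) := by
        have := congrArg (fun z : 𝓞 K => (z : K)) (hc' i)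
        simp only [map_mul] at this
        exact this.symm
      have h6 := congrArg (fun z : K => ‖σ z‖) h5
      simp only [map_mul, norm_mul] at h6
      rw [mul_comm]
      exact h6
    have h2 : ‖σ (c' i)‖ ≤ Real.exp (L σ) := by
      rw [hL, Real.exp_sub, Real.exp_add, Real.exp_add, Real.exp_log hC1pos,
        Real.exp_log (hQQ0 σ), Real.exp_log (hσa σ), Real.exp_log (hσg σ),
        le_div_iff₀ (hσg σ), h1]
      have h3 := hbσ σ i
      rw [← hQQ] at h3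
      calc ‖σ a‖ * ‖σ (b i)‖ ≤ ‖σ a‖ * (C1 * QQ σ) :=
            mul_le_mul_of_nonneg_left h3 (hσa σ).le
        _ = C1 * QQ σ * ‖σ a‖ := by ring
    have hσu : 0 < ‖σ ((u : 𝓞 K) : K)‖ := by
      rw [norm_pos_iff]
      exact (map_ne_zero σ).2 huK
    have h4 : ‖σ (((u : 𝓞 K) * c' i : 𝓞 K) : K)‖ = ‖σ ((u : 𝓞 K) : K)‖ * ‖σ (c' i)‖ := by
      rw [← norm_mul, ← map_mul]
      rfl
    rw [h4]
    calc ‖σ ((u : 𝓞 K) : K)‖ * ‖σ (c' i)‖
        ≤ ‖σ ((u : 𝓞 K) : K)‖ * Real.exp (L σ) := mul_le_mul_of_nonneg_left h2 hσu.le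
      _ = Real.exp (Real.log ‖σ ((u : 𝓞 K) : K)‖ + L σ) := by
          rw [Real.exp_add, Real.exp_log hσu]
      _ ≤ Real.exp (C4 + logHeight₁ x / n) := by
          apply Real.exp_le_exp.2
          refine (hu σ).trans ?_
          rw [hC4, ← hn]
          have h5 : (∑ τ, L τ) / (n : ℝ) ≤
              (logHeight₁ x + (n * Real.log C1 + Real.log Nm)) / n :=
            div_le_div_of_nonneg_right hsum hn0'.le
          rw [add_div] at h5
          linarith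
      _ = Real.exp C4 * Real.exp (logHeight₁ x / n) := Real.exp_add _ _
  refine ⟨fun i => (u : 𝓞 K) * c' i, ((u : 𝓞 K) : K) * ((a : K) / g) *
    (D * Algebra.norm K (β : M)), ?_, ?_, ?_, ?_⟩
  · exact mul_ne_zero (mul_ne_zero huK (div_ne_zero haK hgK)) (mul_ne_zero hDK hNβ)
  · intro i
    have h1 : (g : K) * (c' i : K) = (a : K) * (b i : K) := by
      have := congrArg (fun z : 𝓞 K => (z : K)) (hc' i)
      simp only [map_mul] at this
      exact this.symm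
    rw [hb i] at h1
    have h2 : (c' i : K) = (a : K) / g *
        (D * Algebra.norm K (β : M) * (minpoly K x).coeff i) := by
      rw [div_mul_eq_mul_div, eq_div_iff hgK, mul_comm, h1]
    have h3 : (((u : 𝓞 K) * c' i : 𝓞 K) : K) = ((u : 𝓞 K) : K) * (c' i : K) := rfl
    rw [h3, h2]
    ring
  · intro v hv
    by_contra hcon
    push Not at hcon
    apply hv
    rw [Set.Finite.mem_toFinset]
    simp only [Set.mem_iUnion]
    refine ⟨𝔞, h𝔞, ?_⟩
    change v.asIdeal ∣ 𝔞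
    have h1 : ∀ i, c' i ∈ v.asIdeal := by
      intro i
      exact (Ideal.unit_mul_mem_iff_mem v.asIdeal u.isUnit).1 (hcon i)
    have h2 : Ideal.span {a} * I ≤ Ideal.span {g} * v.asIdeal := by
      rw [hI, Ideal.span_mul_span', Ideal.span_le]
      rintro _ ⟨a', ha', z, ⟨i, rfl⟩, rfl⟩
      rw [Set.mem_singleton_iff] at ha'
      subst ha'
      simp only
      rw [hc' i]
      exact Ideal.mul_mem_mul (Ideal.subset_span rfl) (h1 i)
    rw [hag] at h2
    have hgs : Ideal.span {g} ≠ (⊥ : Ideal (𝓞 K)) := mt Submodule.span_singleton_eq_bot.mp hg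
    rw [← Ideal.dvd_iff_le] at h2
    exact (mul_dvd_mul_iff_left hgs).1 h2
  · intro i
    have hB : 0 ≤ Real.exp C4 * Real.exp (logHeight₁ x / n) := by positivity
    have h1 := hcoord ((u : 𝓞 K) * c' i) _ hB (fun σ => hbound σ i)
    rw [← hn, mul_assoc]
    have h2 : sz ((u : 𝓞 K) * c' i) ≤
        ⌊C5 * (Real.exp C4 * Real.exp (logHeight₁ x / n))⌋₊ := by
      unfold sz
      refine Finset.sup_le fun j _ => ?_
      apply Nat.le_floor
      rw [Nat.cast_natAbs, Int.cast_abs]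
      exact h1 j
    have h3 : ((sz ((u : 𝓞 K) * c' i) : ℕ) : ℝ) ≤
        ((⌊C5 * (Real.exp C4 * Real.exp (logHeight₁ x / n))⌋₊ : ℕ) : ℝ) := by
      exact_mod_cast h2
    exact h3.trans (Nat.floor_le (by positivity))

end Pool.Agent.N459.DR
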